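import Mathlib
import Pool.Agent.Helper113_veblen.Final

/-!
# The coefficient threshold of 3-uniform hypergraphs is not monotone

The definitions (Veblen hypergraphs, rootings, associated coefficients `C_H`, occurrence numbers
`(#H ⊆ E)`, the sums `codegCoeff k v E d` and the coefficient threshold `IsThreshold k v E T`) are
in `Pool.Agent.Helper113_veblen.Defs`.
-/

namespace Pool.Agent.Results.MP_b5794e_co.ThresholdNotMonotone

open Pool.Agent.Helper113_veblen

/-- On the four vertices `0, 1, 2, 3` the hypergraph `H` with the single edge `{0, 1, 2}` is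
contained in the hypergraph `G` with the two edges `{0, 1, 2}` and `{0, 1, 3}`, but
`Th_4(H) = 18 > 9 = Th_4(G)`.  Hence `Th_n(H) ≤ Th_n(G)` does not hold for all `k`-graphs
`H ⊆ G` with `|V(G)| = n`, `k ≥ 3`. -/
theorem result :
    ∃ H G : Finset (Finset (Fin 4)), H = {{0, 1, 2}} ∧ G = {{0, 1, 2}, {0, 1, 3}} ∧
      (∀ e ∈ G, e.card = 3) ∧ H ⊆ G ∧ IsThreshold 3 4 H 18 ∧ IsThreshold 3 4 G 9 := by
  have hcard : ∀ e ∈ G2, e.card = 3 := by
    intro e he
    rcases G2_edges e he with h | h <;> rw [h] <;> decide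
  have hsub : G1 ⊆ G2 := by
    intro e he
    unfold G1 at he
    unfold G2
    rw [Finset.mem_singleton] at he
    rw [Finset.mem_insert]
    exact Or.inl he
  exact ⟨G1, G2, rfl, rfl, hcard, hsub, threshold_G1, threshold_G2⟩

end Pool.Agent.Results.MP_b5794e_co.ThresholdNotMonotone
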